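import Pool.Agent.BVU.Tool

/-!
# Boolean propositions about the quotient models

For a value `b`, the points of `b` are the ultrafilters containing `b`.  `RpP P` says that the
proposition `P F` about the quotient model of `F` has a Boolean value.
-/

namespace Pool.Agent.BVU

universe u

open Pool.Agent.BVM (Fml Sat ZFC cons UPair OPair Rel FunOn Tran Ordl Limit Omega CardLE SuccCard)


open Classical

section

variable {B : Type u} [CompleteBooleanAlgebra B] {b : B}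

/-- the ultrafilters containing `b` -/
abbrev Pt (b : B) : Type u := {F : UF B // F.U b}

/-- the quotient model -/
abbrev Md (F : Pt b) : Type (u + 1) := BVU.Mod F.1

/-- the class of a name -/
def nm (F : Pt b) (x : BSet B) : Md F := BVU.Mod.mk F.1 x

/-- membership in the quotient model -/
abbrev In (F : Pt b) : Md F → Md F → Prop := BVU.Mod.E F.1

theorem exists_nm {F : Pt b} (x : Md F) : ∃ y, nm F y = x := BVU.Mod.exists_rep x

theorem nm_eq {F : Pt b} {x y : BSet B} : nm F x = nm F y ↔ F.1.U (eqv x y) := BVU.Mod.mk_eq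

theorem In_nm {F : Pt b} {x y : BSet B} : In F (nm F x) (nm F y) ↔ F.1.U (memv x y) := Iff.rfl

/-- `P` has a Boolean value -/
def RpP (P : Pt b → Prop) : Prop := ∃ q : B, ∀ F : Pt b, F.1.U q ↔ P F

/-- the Boolean value -/
noncomputable def bv {P : Pt b → Prop} (h : RpP P) : B := h.choose ⊓ b

theorem bv_iff {P : Pt b → Prop} (h : RpP P) (F : Pt b) : F.1.U (bv h) ↔ P F := by
  rw [bv, F.1.inf_iff, h.choose_spec F]
  exact ⟨fun h => h.1, fun h => ⟨h, F.2⟩⟩

theorem bv_uf {P : Pt b → Prop} (h : RpP P) (F : UF B) :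
    F.U (bv h) ↔ ∃ hF : F.U b, P ⟨F, hF⟩ := by
  constructor
  · intro hF
    have h1 : F.U b := F.mono inf_le_right hF
    exact ⟨h1, (bv_iff h ⟨F, h1⟩).1 hF⟩
  · rintro ⟨hF, h1⟩
    exact (bv_iff h ⟨F, hF⟩).2 h1

theorem bv_le_b {P : Pt b → Prop} (h : RpP P) : bv h ≤ b := inf_le_right

theorem le_of_pt {x y : B} (hx : x ≤ b) (h : ∀ F : Pt b, F.1.U x → F.1.U y) : x ≤ y :=
  le_of_uf fun F hF => h ⟨F, F.mono hx hF⟩ hF

theorem bv_le {P : Pt b → Prop} (h : RpP P) {c : B} (hc : ∀ F, P F → F.1.U c) : bv h ≤ c :=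
  le_of_pt (bv_le_b h) fun F hF => hc F ((bv_iff h F).1 hF)

theorem le_bv {P : Pt b → Prop} (h : RpP P) {c : B} (hc : c ≤ b)
    (hc' : ∀ F : Pt b, F.1.U c → P F) : c ≤ bv h :=
  le_of_pt hc fun F hF => (bv_iff h F).2 (hc' F hF)

theorem RpP.val (c : B) : RpP fun F : Pt b => F.1.U c := ⟨c, fun _ => Iff.rfl⟩

theorem RpP.mem (x y : BSet B) : RpP fun F : Pt b => In F (nm F x) (nm F y) :=
  ⟨memv x y, fun _ => Iff.rfl⟩

theorem RpP.eq (x y : BSet B) : RpP fun F : Pt b => nm F x = nm F y :=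
  ⟨eqv x y, fun _ => nm_eq.symm⟩

theorem RpP.const (p : Prop) : RpP fun _ : Pt b => p := ⟨tv p, fun F => F.1.tv_iff⟩

theorem RpP.congr {P Q : Pt b → Prop} (hP : RpP P) (h : ∀ F, P F ↔ Q F) : RpP Q := by
  obtain ⟨q, hq⟩ := hP
  exact ⟨q, fun F => (hq F).trans (h F)⟩

theorem RpP.not {P : Pt b → Prop} (h : RpP P) : RpP fun F => ¬ P F :=
  ⟨(bv h)ᶜ, fun F => by rw [F.1.compl_iff, bv_iff]⟩

theorem RpP.and {P Q : Pt b → Prop} (h : RpP P) (h' : RpP Q) : RpP fun F => P F ∧ Q F :=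
  ⟨bv h ⊓ bv h', fun F => by rw [F.1.inf_iff, bv_iff, bv_iff]⟩

theorem RpP.or {P Q : Pt b → Prop} (h : RpP P) (h' : RpP Q) : RpP fun F => P F ∨ Q F :=
  ⟨bv h ⊔ bv h', fun F => by rw [F.1.sup_iff, bv_iff, bv_iff]⟩

theorem RpP.imp {P Q : Pt b → Prop} (h : RpP P) (h' : RpP Q) : RpP fun F => P F → Q F :=
  ⟨bv h ⇨ bv h', fun F => by rw [F.1.himp_iff, bv_iff, bv_iff]⟩

theorem RpP.iff {P Q : Pt b → Prop} (h : RpP P) (h' : RpP Q) : RpP fun F => (P F ↔ Q F) :=
  ((h.imp h').and (h'.imp h)).congr fun _ => iff_iff_implies_and_implies.symm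

theorem congr_bv {P : ∀ F : Pt b, Md F → Prop} (h : ∀ y, RpP fun F => P F (nm F y)) :
    Congr fun y => bv (h y) := by
  intro x y
  refine le_of_pt (inf_le_right.trans (bv_le_b _)) fun F hF => ?_
  rw [F.1.inf_iff, ← nm_eq, bv_iff] at hF
  rw [bv_iff, ← hF.1]
  exact hF.2

theorem RpP.ex {P : ∀ F : Pt b, Md F → Prop} (h : ∀ y, RpP fun F => P F (nm F y)) :
    RpP fun F => ∃ y, P F y := by
  refine ⟨⨆ y, bv (h y), fun F => ?_⟩
  obtain ⟨x, hx⟩ := (congr_bv h).full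
  constructor
  · intro hF
    rw [← hx, bv_iff] at hF
    exact ⟨_, hF⟩
  · rintro ⟨y, hy⟩
    obtain ⟨y, rfl⟩ := exists_nm y
    exact F.1.mono (le_iSup (fun y => bv (h y)) y) ((bv_iff (h y) F).2 hy)

theorem RpP.all {P : ∀ F : Pt b, Md F → Prop} (h : ∀ y, RpP fun F => P F (nm F y)) :
    RpP fun F => ∀ y, P F y :=
  (RpP.ex (P := fun F y => ¬ P F y) fun y => (h y).not).not.congr fun F => not_exists_not

/-- names of witnesses -/
theorem exists_name {P : ∀ F : Pt b, Md F → Prop} (hP : ∀ y, RpP fun F => P F (nm F y))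
    (h : ∀ F : Pt b, ∃ y, P F y) : ∃ y : BSet B, ∀ F : Pt b, P F (nm F y) := by
  obtain ⟨x, hx⟩ := (congr_bv hP).full
  refine ⟨x, fun F => ?_⟩
  obtain ⟨y, hy⟩ := h F
  obtain ⟨y, rfl⟩ := exists_nm y
  rw [← bv_iff (hP x), hx]
  exact F.1.mono (le_iSup (fun y => bv (hP y)) y) ((bv_iff (hP y) F).2 hy)

/-- separation for propositions with a Boolean value -/
theorem exists_sepP (x : BSet B) {P : ∀ F : Pt b, Md F → Prop}
    (hP : ∀ y, RpP fun F => P F (nm F y)) :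
    ∃ y : BSet B, ∀ (F : Pt b) (z : Md F), In F z (nm F y) ↔ In F z (nm F x) ∧ P F z := by
  obtain ⟨y, hy⟩ := BVU.exists_sep (congr_bv hP) x
  refine ⟨y, fun F z => ?_⟩
  obtain ⟨z, rfl⟩ := exists_nm z
  rw [← bv_iff (hP z), In_nm, In_nm, hy, F.1.inf_iff]

/-- covers -/
def Cov (D : Pt b → Prop) {ι : Sort*} (P : ι → Pt b → Prop) : Prop :=
  ∀ C : Pt b → Prop, RpP C → (∀ i F, D F → P i F → C F) → ∀ F, D F → C F

theorem cov_of_le {D : Pt b → Prop} {ι : Sort*} {P : ι → Pt b → Prop} (hD : RpP D)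
    (hP : ∀ i, RpP (P i)) (h : bv hD ≤ ⨆ i, bv (hP i)) : Cov D P := by
  intro C hC h' F hF
  rw [← bv_iff hC]
  refine F.1.mono ?_ ((bv_iff hD F).2 hF)
  refine BVU.sup_elim h fun i => le_of_pt (inf_le_left.trans (bv_le_b _)) fun G hG => ?_
  rw [G.1.inf_iff, bv_iff, bv_iff] at hG
  exact (bv_iff hC G).2 (h' i G hG.1 hG.2)

theorem Cov.le {D : Pt b → Prop} {ι : Sort*} {P : ι → Pt b → Prop} (h : Cov D P) (hD : RpP D)
    (hP : ∀ i, RpP (P i)) : bv hD ≤ ⨆ i, bv (hP i) := by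
  refine bv_le hD fun F hF => ?_
  refine h (fun F => F.1.U (⨆ i, bv (hP i))) (RpP.val _) (fun i F _ hi => ?_) F hF
  exact F.1.mono (le_iSup (fun i => bv (hP i)) i) ((bv_iff (hP i) F).2 hi)

theorem cov_top {ι : Sort*} {c : ι → B} (h : ⨆ i, c i = ⊤) :
    Cov (fun _ : Pt b => True) fun i F => F.1.U (c i) := by
  refine cov_of_le (RpP.const True) (fun i => RpP.val (c i)) ?_
  have e : (⨆ i, bv (RpP.val (b := b) (c i))) = b := by
    have e1 : ∀ i, bv (RpP.val (b := b) (c i)) = b ⊓ c i := fun i => by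
      refine le_antisymm (le_inf (bv_le_b _) (bv_le _ fun F hF => hF)) ?_
      exact le_bv _ inf_le_left fun F hF => (F.1.inf_iff.1 hF).2
    simp only [e1]
    rw [← inf_iSup_eq, h, inf_top_eq]
  rw [e]
  exact bv_le_b _

/-- quantification over check sets -/
theorem chk_all {X : Type u} (x : X → BSet B) {D : Pt b → Prop} (hD : RpP D)
    {P : ∀ F : Pt b, Md F → Prop} (hP : ∀ y, RpP fun F => P F (nm F y))
    (h : ∀ (F : Pt b), D F → ∀ a : X, P F (nm F (x a))) (F : Pt b) (hF : D F)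
    (y : Md F) (hy : In F y (nm F (chk x))) : P F y := by
  obtain ⟨y, rfl⟩ := exists_nm y
  rw [← bv_iff (hP y)]
  have h1 : bv hD ≤ ⨅ a, bv (hP (x a)) := le_iInf fun a =>
    le_bv _ (bv_le_b _) fun G hG => h G ((bv_iff hD G).1 hG) a
  rw [← BVU.chk_ball (congr_bv hP)] at h1
  have h2 := F.1.mono (h1.trans (iInf_le _ y)) ((bv_iff hD F).2 hF)
  rw [F.1.himp_iff] at h2
  exact h2 hy

/-- existential quantification over check sets -/
theorem chk_ex {X : Type u} (x : X → BSet B) {P : ∀ F : Pt b, Md F → Prop}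
    (hP : ∀ y, RpP fun F => P F (nm F y)) (F : Pt b) :
    F.1.U (⨆ a, bv (hP (x a))) ↔ ∃ y, In F y (nm F (chk x)) ∧ P F y := by
  rw [← BVU.chk_bex (congr_bv hP)]
  have hR : ∀ y, RpP fun F => In F (nm F y) (nm F (chk x)) ∧ P F (nm F y) :=
    fun y => (RpP.mem y (chk x)).and (hP y)
  obtain ⟨z, hz⟩ := (congr_bv (P := fun F y => In F y (nm F (chk x)) ∧ P F y) hR).full
  have e : ∀ y, bv (hR y) = memv y (chk x) ⊓ bv (hP y) := fun y => eq_of_uf fun G => by
    rw [bv_uf, G.inf_iff, bv_uf]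
    exact ⟨fun ⟨h1, h2, h3⟩ => ⟨h2, h1, h3⟩, fun ⟨h2, h1, h3⟩ => ⟨h1, h2, h3⟩⟩
  simp only [e] at hz
  constructor
  · intro hF
    rw [← hz, F.1.inf_iff, bv_iff] at hF
    exact ⟨nm F z, hF.1, hF.2⟩
  · rintro ⟨y, hy1, hy2⟩
    obtain ⟨y, rfl⟩ := exists_nm y
    refine F.1.mono (le_iSup (fun y => memv y (chk x) ⊓ bv (hP y)) y) ?_
    rw [F.1.inf_iff, bv_iff]
    exact ⟨hy1, hy2⟩

/-- covers from existential statements over check sets -/
theorem chk_cov {X : Type u} (x : X → BSet B) {P : ∀ F : Pt b, Md F → Prop}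
    (hP : ∀ y, RpP fun F => P F (nm F y)) {D : Pt b → Prop} (hD : RpP D)
    (h : ∀ F : Pt b, D F → ∃ y, In F y (nm F (chk x)) ∧ P F y) :
    Cov D fun a F => P F (nm F (x a)) := by
  refine cov_of_le hD (fun a => hP (x a)) (bv_le hD fun F hF => ?_)
  exact (chk_ex x hP F).2 (h F hF)

theorem In_chk {X : Type u} (x : X → BSet B) (a : X) (F : Pt b) :
    In F (nm F (x a)) (nm F (chk x)) := BVU.E_chk x a F.1

theorem OPair_nm {F : Pt b} {z : Md F} {x y : BSet B} :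
    OPair (In F) z (nm F x) (nm F y) ↔ z = nm F (BVU.op x y) := BVU.OPair_mk

theorem RpP.opair (z x y : BSet B) :
    RpP fun F : Pt b => OPair (In F) (nm F z) (nm F x) (nm F y) :=
  ⟨eqv z (BVU.op x y), fun F => by rw [← nm_eq]; exact OPair_nm.symm⟩

theorem RpP.rel (f x y : BSet B) :
    RpP fun F : Pt b => BVM.Rel (In F) (nm F f) (nm F x) (nm F y) :=
  ⟨memv (BVU.op x y) f, fun _ => BVU.Rel_mk.symm⟩

/-- the name of the function `x a ↦ y a` -/
noncomputable def fnN {X : Type u} (x y : X → BSet B) : BSet B :=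
  relN x y fun a a' => tv (a = a')

theorem rel_fnN {X : Type u} {x y : X → BSet B} (hd : Disc x) (F : Pt b) (a : X) (z : Md F) :
    BVM.Rel (In F) (nm F (fnN x y)) (nm F (x a)) z ↔ z = nm F (y a) := by
  obtain ⟨z, rfl⟩ := exists_nm z
  refine BVU.Rel_mk.trans ?_
  rw [fnN, BVU.memv_relN]
  have e : (⨆ a', ⨆ b, tv (a' = b) ⊓ (eqv (x a) (x a') ⊓ eqv z (y b))) = eqv z (y a) := by
    refine le_antisymm (iSup_le fun a' => iSup_le fun b => ?_) ?_
    · rw [hd]
      by_cases h1 : a' = b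
      · by_cases h2 : a = a'
        · rw [tv_true h1, tv_true h2, top_inf_eq, top_inf_eq, ← h1, ← h2]
        · rw [tv_false h2, bot_inf_eq, inf_bot_eq]; exact bot_le
      · rw [tv_false h1, bot_inf_eq]; exact bot_le
    · refine le_iSup_of_le a (le_iSup_of_le a ?_)
      rw [tv_true rfl, BVU.eqv_refl, top_inf_eq, top_inf_eq]
  rw [e, ← nm_eq]

/-- the function name is a function on the check set -/
theorem funOn_fnN {X : Type u} {x y : X → BSet B} (hd : Disc x) (F : Pt b) :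
    FunOn (In F) (nm F (fnN x y)) (nm F (chk x)) := by
  refine BVU.funOn_relN hd (fun a => ?_) (fun a b b' => ?_) F.1
  · rw [BVU.tv_iSup]; exact tv_true ⟨a, rfl⟩
  · rw [BVU.tv_inf]
    by_cases h : a = b ∧ a = b'
    · rw [← h.1, ← h.2, BVU.eqv_refl]; exact le_top
    · rw [tv_false h]; exact bot_le

/-- the name of a product -/
def prodN : BSet B → BSet B → BSet B
  | .mk α A a, .mk γ C c => .mk (α × γ) (fun s => BVU.op (A s.1) (C s.2)) fun s => a s.1 ⊓ c s.2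

theorem In_prodN (x y : BSet B) (F : Pt b) (p : Md F) :
    In F p (nm F (prodN x y)) ↔ ∃ s t, In F s (nm F x) ∧ In F t (nm F y) ∧ OPair (In F) p s t := by
  have key : ∀ s t : BSet B, memv (BVU.op s t) (prodN x y) = memv s x ⊓ memv t y := by
    intro s t
    obtain ⟨α, A, a⟩ := x
    obtain ⟨γ, C, c⟩ := y
    rw [prodN, BVU.memv_mk, BVU.memv_mk, BVU.memv_mk, iSup_inf_iSup]
    refine iSup_congr fun i => ?_
    rw [BVU.eqv_op, inf_inf_inf_comm]
  constructor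
  · intro h
    obtain ⟨p, rfl⟩ := exists_nm p
    have hR : RpP fun F : Pt b => ∃ s t, In F s (nm F x) ∧ In F t (nm F y) ∧
        OPair (In F) (nm F p) s t :=
      RpP.ex fun s => RpP.ex fun t => (RpP.mem _ _).and ((RpP.mem _ _).and (RpP.opair _ _ _))
    rw [← bv_iff hR]
    have h2 : b ⊓ memv p (prodN x y) ≤ bv hR := by
      obtain ⟨α, A, a⟩ := x
      obtain ⟨γ, C, c⟩ := y
      rw [prodN, BVU.memv_mk, inf_iSup_eq]
      refine iSup_le fun i => le_bv hR inf_le_left fun G hG => ?_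
      rw [G.1.inf_iff, G.1.inf_iff, G.1.inf_iff] at hG
      exact ⟨nm G (A i.1), nm G (C i.2), G.1.mono (BVU.memv_self A a i.1) hG.2.1.1,
        G.1.mono (BVU.memv_self C c i.2) hG.2.1.2, OPair_nm.2 (nm_eq.2 hG.2.2)⟩
    exact F.1.mono h2 (F.1.inf F.2 h)
  · rintro ⟨s, t, hs, ht, hp⟩
    obtain ⟨s, rfl⟩ := exists_nm s
    obtain ⟨t, rfl⟩ := exists_nm t
    rw [OPair_nm] at hp
    rw [hp, In_nm, key, F.1.inf_iff]
    exact ⟨hs, ht⟩

theorem omega_nm (F : Pt b) : Omega (In F) (nm F (onT UN.{u})) := omega_onT F.1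

theorem zfc_nm (F : Pt b) : ZFC (In F) := zfc F.1

end

end Pool.Agent.BVU
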