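import Pool.Agent.BVM.Notions
import Pool.Agent.BVU.Axioms

/-!
# Formulas for the set-theoretic notions
-/

namespace Pool.Agent.BVU

universe u

open Pool.Agent.BVM (Fml Sat ZFC cons UPair OPair Rel FunOn Tran Ordl Limit Omega CardLE SuccCard
  Ladder LSC Aronszajn FullUnif)


/-- formula for `UPair` -/
def fUPair (z x y : ℕ) : Fml := .all (.iff (.mem 0 (z + 1)) (.or (.eq 0 (x + 1)) (.eq 0 (y + 1))))

/-- formula for `OPair` -/
def fOPair (z x y : ℕ) : Fml :=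
  .ex (.ex (.and (fUPair 1 (x + 2) (x + 2)) (.and (fUPair 0 (x + 2) (y + 2))
    (fUPair (z + 2) 1 0))))

/-- formula for `Rel` -/
def fRel (f x y : ℕ) : Fml := .ex (.and (fOPair 0 (x + 1) (y + 1)) (.mem 0 (f + 1)))

/-- formula for `FunOn` -/
def fFunOn (f d : ℕ) : Fml :=
  .and (.all (.imp (.mem 0 (f + 1)) (.ex (.ex (.and (.mem 1 (d + 3)) (fOPair 2 1 0))))))
    (.all (.imp (.mem 0 (d + 1)) (.ex (.and (fRel (f + 2) 1 0)
      (.all (.imp (fRel (f + 3) 2 0) (.eq 0 1)))))))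

/-- formula for `Tran` -/
def fTran (x : ℕ) : Fml :=
  .all (.all (.imp (.mem 1 (x + 2)) (.imp (.mem 0 1) (.mem 0 (x + 2)))))

/-- formula for `Ordl` -/
def fOrdl (x : ℕ) : Fml := .and (fTran x) (.all (.imp (.mem 0 (x + 1)) (fTran 0)))

/-- formula for `Limit` -/
def fLimit (x : ℕ) : Fml :=
  .and (fOrdl x) (.and (.ex (.mem 0 (x + 1))) (.all (.imp (.mem 0 (x + 1))
    (.ex (.and (.mem 0 (x + 2)) (.mem 1 0))))))

/-- formula for `CardLE` -/
def fCardLE (b a : ℕ) : Fml :=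
  .ex (.and (.all (.all (.all (.imp (fRel 3 2 1) (.imp (fRel 3 2 0) (.eq 0 1))))))
    (.all (.imp (.mem 0 (b + 2)) (.ex (.and (.mem 0 (a + 3)) (fRel 2 0 1))))))

/-- formula for `Ladder` -/
def fLadder (w α c : ℕ) : Fml :=
  .and (.all (.imp (.mem 0 (c + 1)) (.mem 0 (α + 1))))
    (.and (.all (.imp (.mem 0 (α + 1)) (.ex (.and (.mem 0 (c + 2)) (.mem 1 0)))))
      (.ex (.and (fFunOn 0 (w + 1))
        (.and (.all (.all (.all (.all (.imp (.mem 3 2) (.imp (fRel 4 3 1) (.imp (fRel 4 2 0)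
          (.mem 1 0))))))))
          (.all (.iff (.mem 0 (c + 2)) (.ex (fRel 2 0 1))))))))

/-- the second part of the definition of ladder system colourings, for one `α` -/
def fLSC1 (w α f : ℕ) : Fml :=
  .ex (.and (.and (fRel (f + 1) (α + 1) 0) (.all (.imp (fRel (f + 2) (α + 2) 0) (.eq 0 1))))
    (.ex (.and (fLadder (w + 2) (α + 2) 0) (.and (fFunOn 1 0)
      (.all (.all (.imp (fRel 3 1 0) (.mem 0 (w + 4)))))))))

/-- formula for `LSC` -/
def fLSC (w w1 f : ℕ) : Fml :=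
  .and (.all (.imp (.mem 0 (f + 1)) (.ex (.ex (.and (.and (.mem 1 (w1 + 3)) (fLimit 1))
    (fOPair 2 1 0))))))
    (.all (.imp (.mem 0 (w1 + 1)) (.imp (fLimit 0) (fLSC1 (w + 1) 0 (f + 1)))))

/-- formula for the chain condition in `Aronszajn` -/
def fChain (w T L : ℕ) : Fml :=
  .all (.imp (.all (.imp (.mem 0 1) (.mem 0 (T + 2))))
    (.imp (.all (.all (.imp (.mem 1 2) (.imp (.mem 0 2) (.or (.eq 1 0)
      (.or (fRel (L + 3) 1 0) (fRel (L + 3) 0 1)))))))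
      (fCardLE 0 (w + 1))))

/-- formula for the condition on levels in `Aronszajn`, for one `α` -/
def fLevel (w α H : ℕ) : Fml :=
  .ex (.and (.all (.iff (.mem 0 1) (fRel (H + 2) 0 (α + 2)))) (.and (.ex (.mem 0 1))
    (fCardLE 0 (w + 1))))

/-- formula for the condition on predecessors in `Aronszajn` -/
def fPred (L H : ℕ) : Fml :=
  .all (.all (.all (.imp (fRel (H + 3) 2 1) (.imp (.mem 0 1)
    (.ex (.and (.and (fRel (L + 4) 0 3) (fRel (H + 4) 0 1))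
      (.all (.imp (fRel (L + 5) 0 4) (.imp (fRel (H + 5) 0 2) (.eq 0 1))))))))))

/-- formula for `Aronszajn` -/
def fAron (w w1 T L H : ℕ) : Fml :=
  .and (.all (.all (.imp (fRel (L + 2) 1 0) (.and (.mem 1 (T + 2)) (.mem 0 (T + 2))))))
  (.and (.all (.all (.all (.imp (fRel (L + 3) 2 1) (.imp (fRel (L + 3) 1 0)
    (fRel (L + 3) 2 0))))))
  (.and (fFunOn H T)
  (.and (.all (.all (.imp (fRel (H + 2) 1 0) (.mem 0 (w1 + 2)))))
  (.and (.all (.all (.all (.all (.imp (fRel (L + 4) 3 2) (.imp (fRel (H + 4) 3 1)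
    (.imp (fRel (H + 4) 2 0) (.mem 1 0))))))))
  (.and (fPred L H)
  (.and (.all (.imp (.mem 0 (w1 + 1)) (fLevel (w + 1) 0 (H + 1)))) (fChain w T L)))))))

/-- formula for prunedness -/
def fPruned (w1 T L H : ℕ) : Fml :=
  .all (.imp (.mem 0 (T + 1)) (.all (.imp (.mem 0 (w1 + 2)) (.ex (.ex
    (.and (fRel (L + 4) 3 1) (.and (fRel (H + 4) 1 0) (.mem 2 0))))))))

/-- the formula inside the existential quantifier of `fUnif1` -/
def fUnif0 (L H φ s α g : ℕ) : Fml :=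
  .and (.mem 0 (α + 1)) (.all (.all (.imp (.mem 2 1) (.imp (fRel (g + 3) 1 0)
    (.all (.imp (fRel (L + 4) 0 (s + 4)) (.imp (fRel (H + 4) 0 2) (fRel (φ + 4) 0 1))))))))

/-- formula for the main part of `FullUnif`, for one `s`, `α`, `g` -/
def fUnif1 (L H φ s α g : ℕ) : Fml := .ex (fUnif0 L H φ s α g)

/-- formula for `FullUnif` -/
def fUnif (w1 T L H f φ : ℕ) : Fml :=
  .and (fPruned w1 T L H) (.and (fFunOn φ T)
    (.all (.all (.all (.imp (fRel (H + 3) 2 1) (.imp (fLimit 1) (.imp (fRel (f + 3) 1 0)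
      (fUnif1 (L + 3) (H + 3) (φ + 3) 2 1 0))))))))

section

variable {M : Type*} {E : M → M → Prop} {v : ℕ → M}

theorem sat_fUPair {z x y : ℕ} : Sat E (fUPair z x y) v ↔ UPair E (v z) (v x) (v y) := Iff.rfl

theorem sat_fOPair {z x y : ℕ} : Sat E (fOPair z x y) v ↔ OPair E (v z) (v x) (v y) := Iff.rfl

theorem sat_fRel {f x y : ℕ} : Sat E (fRel f x y) v ↔ Rel E (v f) (v x) (v y) := Iff.rfl

theorem sat_fFunOn {f d : ℕ} : Sat E (fFunOn f d) v ↔ FunOn E (v f) (v d) := Iff.rfl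

theorem sat_fTran {x : ℕ} : Sat E (fTran x) v ↔ Tran E (v x) := Iff.rfl

theorem sat_fOrdl {x : ℕ} : Sat E (fOrdl x) v ↔ Ordl E (v x) := Iff.rfl

theorem sat_fLimit {x : ℕ} : Sat E (fLimit x) v ↔ Limit E (v x) := Iff.rfl

theorem sat_fCardLE {b a : ℕ} : Sat E (fCardLE b a) v ↔ CardLE E (v b) (v a) := Iff.rfl

theorem sat_fLadder {w α c : ℕ} : Sat E (fLadder w α c) v ↔ Ladder E (v w) (v α) (v c) := Iff.rfl

theorem sat_fLSC {w w1 f : ℕ} : Sat E (fLSC w w1 f) v ↔ LSC E (v w) (v w1) (v f) := Iff.rfl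

theorem sat_fAron {w w1 T L H : ℕ} : Sat E (fAron w w1 T L H) v ↔
    Aronszajn E (v w) (v w1) (v T) (v L) (v H) :=
  ⟨fun h => ⟨h.1, h.2.1, h.2.2.1, h.2.2.2.1, h.2.2.2.2.1, h.2.2.2.2.2.1, h.2.2.2.2.2.2.1,
    h.2.2.2.2.2.2.2⟩, fun h => ⟨h.1, h.2, h.3, h.4, h.5, h.6, h.7, h.8⟩⟩

theorem sat_fUnif {w1 T L H f φ : ℕ} : Sat E (fUnif w1 T L H f φ) v ↔
    FullUnif E (v w1) (v T) (v L) (v H) (v f) (v φ) := Iff.rfl

end

end Pool.Agent.BVU
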