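import Pool.Agent.BVU.Deep

/-!
# Evaluation of formulas in the quotient models
-/

namespace Pool.Agent.BVU

universe u

open Pool.Agent.BVM (Fml Sat ZFC cons UPair OPair Rel FunOn Tran Ordl Limit Omega CardLE SuccCard)



section

variable {M : Type*} {E : M → M → Prop}

theorem UPair.single {a x x' : M} (h : UPair E a x x) (h' : UPair E a x' x') : x = x' := by
  have h1 := (h x).2 (Or.inl rfl)
  rcases (h' x).1 h1 with h | h <;> exact h

theorem OPair.inj {z x y x' y' : M} (h : OPair E z x y) (h' : OPair E z x' y') :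
    x = x' ∧ y = y' := by
  obtain ⟨a, b, h1, h2, h3⟩ := h
  obtain ⟨a', b', h1', h2', h3'⟩ := h'
  have hx : x = x' := by
    have e1 := (h3' a).1 ((h3 a).2 (Or.inl rfl))
    rcases e1 with rfl | rfl
    · exact UPair.single h1 h1'
    · have e2 := (h2' x').2 (Or.inl rfl)
      rcases (h1 x').1 e2 with h | h <;> exact h.symm
  subst hx
  refine ⟨rfl, ?_⟩
  have e1 := (h3' b).1 ((h3 b).2 (Or.inr rfl))
  have e2 := (h3 b').1 ((h3' b').2 (Or.inr rfl))
  rcases e1 with rfl | rfl
  · -- b = a'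
    have hy : y = x := by
      have := (h2 y).2 (Or.inr rfl)
      rcases (h1' y).1 this with h | h <;> exact h
    rcases e2 with rfl | rfl
    · have := (h2' y').2 (Or.inr rfl)
      rcases (h1 y').1 this with h | h <;> exact hy.trans h.symm
    · have := (h2' y').2 (Or.inr rfl)
      rcases (h1' y').1 this with h | h <;> exact hy.trans h.symm
  · have f1 := (h2 y).2 (Or.inr rfl)
    have f2 := (h2' y').2 (Or.inr rfl)
    rcases (h2' y).1 f1 with h | h
    · rcases (h2 y').1 f2 with h' | h'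
      · exact h.trans h'.symm
      · exact h'.symm
    · exact h

end

section

variable {B : Type u} [CompleteBooleanAlgebra B]

/-- names for ordered pairs -/
def op (x y : BSet B) : BSet B := pr2 (pr2 x x) (pr2 x y)

theorem UPair_mk {F : UF B} {z : Mod F} {x y : BSet B} :
    UPair (Mod.E F) z (Mod.mk F x) (Mod.mk F y) ↔ z = Mod.mk F (pr2 x y) := by
  have h : UPair (Mod.E F) (Mod.mk F (pr2 x y)) (Mod.mk F x) (Mod.mk F y) := by
    intro t
    obtain ⟨t, rfl⟩ := t.exists_rep
    rw [Mod.E_mk, memv_pr2, F.sup_iff, Mod.mk_eq, Mod.mk_eq]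
  constructor
  · intro h'
    exact (zfc F).ext _ _ fun t => (h' t).trans (h t).symm
  · rintro rfl
    exact h

theorem OPair_mk {F : UF B} {z : Mod F} {x y : BSet B} :
    OPair (Mod.E F) z (Mod.mk F x) (Mod.mk F y) ↔ z = Mod.mk F (op x y) := by
  constructor
  · rintro ⟨a, b, h1, h2, h3⟩
    rw [UPair_mk] at h1 h2
    rw [h1, h2, UPair_mk] at h3
    exact h3
  · rintro rfl
    exact ⟨_, _, UPair_mk.2 rfl, UPair_mk.2 rfl, UPair_mk.2 rfl⟩

theorem Rel_mk {F : UF B} {f x y : BSet B} :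
    Rel (Mod.E F) (Mod.mk F f) (Mod.mk F x) (Mod.mk F y) ↔ F.U (memv (op x y) f) := by
  constructor
  · rintro ⟨z, h1, h2⟩
    rw [OPair_mk] at h1
    rw [h1] at h2
    exact h2
  · intro h
    exact ⟨_, OPair_mk.2 rfl, h⟩

theorem val_fOPair {z x y : ℕ} {v : ℕ → BSet B} :
    val (fOPair z x y) v = eqv (v z) (op (v x) (v y)) := by
  refine eq_of_uf fun F => ?_
  rw [← los, sat_fOPair, OPair_mk, Mod.mk_eq]

theorem val_fRel {f x y : ℕ} {v : ℕ → BSet B} :
    val (fRel f x y) v = memv (op (v x) (v y)) (v f) := by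
  refine eq_of_uf fun F => ?_
  rw [← los, sat_fRel, Rel_mk]

theorem eqv_op (x y x' y' : BSet B) : eqv (op x y) (op x' y') = eqv x x' ⊓ eqv y y' := by
  refine eq_of_uf fun F => ?_
  rw [F.inf_iff, ← Mod.mk_eq, ← Mod.mk_eq, ← Mod.mk_eq]
  constructor
  · intro h
    exact OPair.inj (E := Mod.E F) (OPair_mk.2 rfl) (OPair_mk.2 h)
  · rintro ⟨h1, h2⟩
    rw [← OPair_mk, ← h1, ← h2, OPair_mk]

/-- the name of a relation between two sets of names -/
def relN {X Y : Type u} (nm : X → BSet B) (nm' : Y → BSet B) (R : X → Y → B) : BSet B :=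
  .mk (X × Y) (fun s => op (nm s.1) (nm' s.2)) (fun s => R s.1 s.2)

theorem memv_relN' {X Y : Type u} (nm : X → BSet B) (nm' : Y → BSet B) (R : X → Y → B)
    (z : BSet B) :
    memv z (relN nm nm' R) = ⨆ a, ⨆ b, R a b ⊓ eqv z (op (nm a) (nm' b)) := by
  rw [relN, memv_mk, iSup_prod]

theorem memv_relN {X Y : Type u} (nm : X → BSet B) (nm' : Y → BSet B) (R : X → Y → B)
    (x y : BSet B) :
    memv (op x y) (relN nm nm' R) = ⨆ a, ⨆ b, R a b ⊓ (eqv x (nm a) ⊓ eqv y (nm' b)) := by
  rw [memv_relN']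
  simp only [eqv_op]

/-- distinct indices have names which are never equal -/
def Disc {X : Type u} (nm : X → BSet B) : Prop := ∀ a b, eqv (nm a) (nm b) = tv (a = b)

theorem disc_on {X : Type u} [LinearOrder X] [WellFoundedLT X] : Disc (on : X → BSet B) :=
  fun a b => eqv_on a b

theorem Disc.comp {X Y : Type u} {nm : X → BSet B} (h : Disc nm) {f : Y → X}
    (hf : Function.Injective f) : Disc (fun y => nm (f y)) := by
  intro a b
  rw [h]
  congr 1
  exact propext hf.eq_iff

theorem Disc.op {X Y : Type u} {nm : X → BSet B} {nm' : Y → BSet B} (h : Disc nm)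
    (h' : Disc nm') : Disc (fun s : X × Y => op (nm s.1) (nm' s.2)) := by
  intro a b
  rw [eqv_op, h, h', tv_inf]
  congr 1
  exact propext Prod.ext_iff.symm

theorem Disc.eq {X : Type u} {nm : X → BSet B} (h : Disc nm) {F : UF B} {a b : X}
    (hab : F.U (eqv (nm a) (nm b))) : a = b := by
  rw [h] at hab
  by_contra hne
  rw [tv_false hne] at hab
  exact F.bot hab

theorem UF.tv_iff (F : UF B) {p : Prop} : F.U (tv p) ↔ p := by
  by_cases hp : p
  · rw [tv_true hp]; exact ⟨fun _ => hp, fun _ => F.top⟩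
  · rw [tv_false hp]; exact ⟨fun h => (F.bot h).elim, fun h => (hp h).elim⟩

theorem Rel_relN {X Y : Type u} {nm : X → BSet B} {nm' : Y → BSet B} (h : Disc nm)
    (h' : Disc nm') (R : X → Y → B) (a : X) (b : Y) :
    memv (BVU.op (nm a) (nm' b)) (relN nm nm' R) = R a b := by
  rw [memv_relN]
  refine le_antisymm (iSup_le fun a' => iSup_le fun b' => ?_) ?_
  · rw [h, h', tv_inf]
    by_cases he : a = a' ∧ b = b'
    · rw [he.1, he.2]; exact inf_le_left
    · rw [tv_false he, inf_bot_eq]; exact bot_le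
  · refine le_iSup_of_le a (le_iSup_of_le b ?_)
    rw [eqv_refl, eqv_refl, inf_top_eq, inf_top_eq]

/-- elements of check sets, below a value -/
theorem ball_chk {X : Type u} (nm : X → BSet B) (φ : Fml) (v : ℕ → BSet B) (c : B)
    (h : ∀ F : UF B, F.U c → ∀ a, Sat (Mod.E F) φ (cons (Mod.mk F (nm a))
      fun i => Mod.mk F (v i)))
    (F : UF B) (hF : F.U c) (x : Mod F) (hx : Mod.E F x (Mod.mk F (chk nm))) :
    Sat (Mod.E F) φ (cons x fun i => Mod.mk F (v i)) := by
  obtain ⟨x, rfl⟩ := x.exists_rep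
  rw [cons_mk, los]
  have h1 : c ≤ ⨅ a, val φ (cons (nm a) v) := by
    refine le_iInf fun a => le_of_uf fun F' hF' => ?_
    have := h F' hF' a
    rwa [cons_mk, los] at this
  rw [← chk_ball (val_congr1 φ v)] at h1
  have h2 := F.mono (h1.trans (iInf_le _ x)) hF
  rw [F.himp_iff] at h2
  exact h2 hx

/-- a value which is an infimum of values of formulas -/
theorem ball_chk' {X : Type u} (nm : X → BSet B) (φ : Fml) (v : ℕ → BSet B) (F : UF B)
    (hF : F.U (⨅ a, val φ (cons (nm a) v))) (x : Mod F)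
    (hx : Mod.E F x (Mod.mk F (chk nm))) :
    Sat (Mod.E F) φ (cons x fun i => Mod.mk F (v i)) := by
  obtain ⟨x, rfl⟩ := x.exists_rep
  rw [cons_mk, los]
  rw [← chk_ball (val_congr1 φ v)] at hF
  have h2 := F.mono (iInf_le _ x) hF
  rw [F.himp_iff] at h2
  exact h2 hx

/-- existence in the quotient from a join in the algebra -/
theorem ex_of_iSup {ι : Sort*} {F : UF B} {b : ι → B} (hb : F.U (⨆ m, b m)) (φ : Fml)
    (v : ℕ → BSet B) (x : ι → BSet B) (h : ∀ m, b m ≤ val φ (cons (x m) v)) :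
    ∃ y, Sat (Mod.E F) φ (cons y fun i => Mod.mk F (v i)) := by
  refine (los F (.ex φ) v).2 (F.mono ?_ hb)
  exact iSup_le fun m => (h m).trans (le_iSup (fun x => val φ (cons x v)) (x m))

theorem val_top {φ : Fml} {v : ℕ → BSet B}
    (h : ∀ F : UF B, Sat (Mod.E F) φ fun i => Mod.mk F (v i)) : val φ v = ⊤ := by
  rw [eq_top_iff]
  exact le_of_uf fun F _ => (los F φ v).1 (h F)

theorem le_val {φ : Fml} {v : ℕ → BSet B} {c : B}
    (h : ∀ F : UF B, F.U c → Sat (Mod.E F) φ fun i => Mod.mk F (v i)) : c ≤ val φ v :=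
  le_of_uf fun F hF => (los F φ v).1 (h F hF)

/-- names of functions -/
theorem funOn_relN {X Y : Type u} {nm : X → BSet B} {nm' : Y → BSet B} (hd : Disc nm)
    {R : X → Y → B} (tot : ∀ a, ⨆ b, R a b = ⊤)
    (fn : ∀ a b b', R a b ⊓ R a b' ≤ eqv (nm' b) (nm' b')) (F : UF B) :
    FunOn (Mod.E F) (Mod.mk F (relN nm nm' R)) (Mod.mk F (chk nm)) := by
  constructor
  · intro z hz
    obtain ⟨z, rfl⟩ := z.exists_rep
    rw [Mod.E_mk, memv_relN'] at hz
    have h1 : val (.ex (.ex (.and (.mem 1 3) (fOPair 2 1 0)))) (cons z fun _ => chk nm) ≥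
        ⨆ a, ⨆ b, R a b ⊓ eqv z (op (nm a) (nm' b)) := by
      refine iSup_le fun a => iSup_le fun b => ?_
      refine le_iSup_of_le (nm a) (le_iSup_of_le (nm' b) (le_inf ?_ ?_))
      · refine le_top.trans ?_
        show ⊤ ≤ memv (nm a) (chk nm)
        rw [memv_chk]
        exact le_iSup_of_le a (eqv_refl _).ge
      · rw [val_fOPair]
        exact inf_le_right
    exact (los F (.ex (.ex (.and (.mem 1 3) (fOPair 2 1 0)))) (cons z fun _ => chk nm)).2
      (F.mono h1 hz)
  · intro x hx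
    refine ball_chk' nm (.ex (.and (fRel 2 1 0) (.all (.imp (fRel 3 2 0) (.eq 0 1)))))
      (fun _ => relN nm nm' R) F ?_ x hx
    refine F.mono (le_iInf fun a => ?_) F.top
    rw [← tot a]
    refine iSup_le fun b => le_iSup_of_le (nm' b) (le_inf ?_ (le_iInf fun y => ?_))
    · rw [val_fRel]
      show R a b ≤ memv (op (nm a) (nm' b)) (relN nm nm' R)
      rw [memv_relN]
      refine le_iSup_of_le a (le_iSup_of_le b ?_)
      rw [eqv_refl, eqv_refl, inf_top_eq, inf_top_eq]
    · show R a b ≤ val (fRel 3 2 0) _ ⇨ eqv y (nm' b)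
      rw [val_fRel, le_himp_iff]
      show R a b ⊓ memv (op (nm a) y) (relN nm nm' R) ≤ eqv y (nm' b)
      rw [memv_relN, inf_iSup_eq]
      refine iSup_le fun a' => ?_
      rw [inf_iSup_eq]
      refine iSup_le fun b' => ?_
      rw [hd]
      by_cases he : a = a'
      · subst he
        refine le_trans ?_ (eqv_trans y (nm' b') (nm' b))
        refine le_inf (inf_le_right.trans (inf_le_right.trans inf_le_right)) ?_
        refine le_trans ?_ ((fn a b b').trans (eqv_symm _ _).le)
        exact le_inf inf_le_left (inf_le_right.trans inf_le_left)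
      · rw [tv_false he, bot_inf_eq, inf_bot_eq, inf_bot_eq]
        exact bot_le

end

end Pool.Agent.BVU
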