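import Mathlib

/-!
# The complete Boolean algebra of regular open subsets of a preorder
-/

namespace Pool.Agent.BVU

universe u


open Order Heyting

/-- regular elements of a frame form a complete Boolean algebra -/
noncomputable instance regularCBA (α : Type u) [Order.Frame α] :
    CompleteBooleanAlgebra (Heyting.Regular α) :=
  { (inferInstance : BooleanAlgebra (Heyting.Regular α)),
    (Heyting.Regular.gi (α := α)).liftCompleteLattice with }

/-- regular open algebra of a preorder (conditions `p ≤ q` : `p` is stronger) -/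
def RO (P : Type u) [Preorder P] : Type u := Heyting.Regular (LowerSet P)

noncomputable instance (P : Type u) [Preorder P] : CompleteBooleanAlgebra (RO P) :=
  regularCBA (LowerSet P)

section

variable {P : Type u} [Preorder P]

/-- `p` forces `b` -/
def Forc (p : P) (b : RO P) : Prop := p ∈ (b.val : LowerSet P)

theorem Forc.mono {p q : P} {b : RO P} (h : Forc p b) (hq : q ≤ p) : Forc q b :=
  b.val.lower hq h

theorem mem_compl_lower (a : LowerSet P) (p : P) : p ∈ aᶜ ↔ ∀ q, q ≤ p → q ∉ a := by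
  rw [← LowerSet.Iic_le, le_compl_iff_disjoint_left, disjoint_iff_inf_le]
  constructor
  · intro h q hq hqa
    have : q ∈ (a ⊓ LowerSet.Iic p : LowerSet P) := ⟨hqa, hq⟩
    exact h this
  · intro h q hq
    exact absurd hq.1 (h q hq.2)

theorem forc_le_iff {a b : RO P} : a ≤ b ↔ ∀ p, Forc p a → Forc p b := Iff.rfl

theorem forc_inf {p : P} {a b : RO P} : Forc p (a ⊓ b) ↔ Forc p a ∧ Forc p b := Iff.rfl

theorem forc_top {p : P} : Forc p (⊤ : RO P) := trivial

theorem forc_bot {p : P} : ¬ Forc p (⊥ : RO P) := fun h => h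

theorem forc_compl {p : P} {a : RO P} : Forc p aᶜ ↔ ∀ q, q ≤ p → ¬ Forc q a :=
  mem_compl_lower _ _

theorem forc_iff_dense {p : P} {b : RO P} : Forc p b ↔ ∀ q, q ≤ p → ∃ r, r ≤ q ∧ Forc r b := by
  constructor
  · intro h q hq; exact ⟨q, le_rfl, h.mono hq⟩
  · intro h
    have e : b = bᶜᶜ := (compl_compl b).symm
    rw [e, forc_compl]
    intro q hq hc
    obtain ⟨r, hr, hrb⟩ := h q hq
    exact forc_compl.1 hc r hr hrb

theorem forc_himp {p : P} {a b : RO P} :
    Forc p (a ⇨ b) ↔ ∀ q, q ≤ p → Forc q a → Forc q b := by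
  have e : ∀ a b : LowerSet P, p ∈ (a ⇨ b : LowerSet P) ↔ ∀ q, q ≤ p → q ∈ a → q ∈ b := by
    intro a b
    rw [← LowerSet.Iic_le, le_himp_iff]
    constructor
    · intro h q hq hqa
      exact h ⟨hq, hqa⟩
    · intro h q hq
      exact h q hq.1 hq.2
  exact e _ _

/-- the regular open set generated by a condition -/
noncomputable def pt (s : P) : RO P := (Heyting.Regular.toRegular (LowerSet.Iic s) :
  Heyting.Regular (LowerSet P))

theorem pt_le_iff {p : P} {b : RO P} : pt p ≤ b ↔ Forc p b := by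
  have h : ∀ b : Heyting.Regular (LowerSet P), Heyting.Regular.toRegular (LowerSet.Iic p) ≤ b ↔
      p ∈ (b.val : LowerSet P) := by
    intro b
    rw [Heyting.Regular.gi.gc.le_iff_le, LowerSet.Iic_le]
  exact h b

theorem forc_iInf {ι : Sort*} {p : P} {f : ι → RO P} : Forc p (⨅ i, f i) ↔ ∀ i, Forc p (f i) := by
  rw [← pt_le_iff, le_iInf_iff]
  exact forall_congr' fun i => pt_le_iff

theorem forc_iInf₂ {ι : Sort*} {κ : ι → Sort*} {p : P} {f : ∀ i, κ i → RO P} :
    Forc p (⨅ i, ⨅ j, f i j) ↔ ∀ i j, Forc p (f i j) := by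
  simp only [forc_iInf]

theorem forc_iSup {ι : Sort*} {p : P} {f : ι → RO P} :
    Forc p (⨆ i, f i) ↔ ∀ q, q ≤ p → ∃ r, r ≤ q ∧ ∃ i, Forc r (f i) := by
  rw [← compl_compl (⨆ i, f i), compl_iSup, forc_compl]
  refine forall_congr' fun q => imp_congr_right fun _ => ?_
  rw [forc_iInf]
  constructor
  · intro h
    push Not at h
    obtain ⟨i, hi⟩ := h
    rw [forc_compl] at hi
    push Not at hi
    obtain ⟨r, hr, h⟩ := hi
    exact ⟨r, hr, i, h⟩
  · rintro ⟨r, hr, i, h⟩ hall
    exact forc_compl.1 (hall i) r hr h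

theorem forc_sup {p : P} {a b : RO P} :
    Forc p (a ⊔ b) ↔ ∀ q, q ≤ p → ∃ r, r ≤ q ∧ (Forc r a ∨ Forc r b) := by
  rw [sup_eq_iSup, forc_iSup]
  refine forall_congr' fun q => imp_congr_right fun _ => exists_congr fun r => and_congr_right
    fun _ => ?_
  constructor
  · rintro ⟨i, h⟩
    cases i
    · exact Or.inr h
    · exact Or.inl h
  · rintro (h | h)
    · exact ⟨true, h⟩
    · exact ⟨false, h⟩

theorem Forc.iSup {ι : Sort*} {p : P} {f : ι → RO P} (i : ι) (h : Forc p (f i)) :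
    Forc p (⨆ i, f i) := forc_le_iff.1 (le_iSup f i) p h

theorem not_forc {p : P} {b : RO P} (h : ¬ Forc p b) : ∃ q, q ≤ p ∧ Forc q bᶜ := by
  rw [← compl_compl b, forc_compl] at h
  push Not at h
  simpa using h

theorem forc_decide (p : P) (b : RO P) : ∃ q, q ≤ p ∧ (Forc q b ∨ Forc q bᶜ) := by
  by_cases h : Forc p b
  · exact ⟨p, le_rfl, Or.inl h⟩
  · obtain ⟨q, hq, h⟩ := not_forc h
    exact ⟨q, hq, Or.inr h⟩

theorem exists_forc {b : RO P} (h : b ≠ ⊥) : ∃ p, Forc p b := by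
  by_contra hn
  push Not at hn
  exact h (le_bot_iff.1 (forc_le_iff.2 fun p hp => absurd hp (hn p)))

theorem eq_top_iff_forc {b : RO P} : b = ⊤ ↔ ∀ p, Forc p b := by
  rw [← top_le_iff, forc_le_iff]
  exact ⟨fun h p => h p forc_top, fun h p _ => h p⟩

/-- the regular open set of conditions densely below a set `A` of conditions -/
noncomputable def below (A : Set P) : RO P := ⨆ s : A, pt s.1

theorem forc_pt {p s : P} : Forc p (pt s) ↔
    ∀ q, q ≤ p → ∃ r, r ≤ q ∧ r ≤ s := by
  show p ∈ ((LowerSet.Iic s)ᶜᶜ : LowerSet P) ↔ _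
  rw [mem_compl_lower]
  refine forall_congr' fun q => imp_congr_right fun _ => ?_
  rw [mem_compl_lower]
  push Not
  exact Iff.rfl

theorem forc_below {A : Set P} {p : P} :
    Forc p (below A) ↔ ∀ q, q ≤ p → ∃ r, r ≤ q ∧ ∃ s ∈ A, r ≤ s := by
  rw [below, forc_iSup]
  constructor
  · intro h q hq
    obtain ⟨r, hr, ⟨s, hs⟩, h'⟩ := h q hq
    obtain ⟨r', hr', hs'⟩ := forc_pt.1 h' r le_rfl
    exact ⟨r', hr'.trans hr, s, hs, hs'⟩
  · intro h q hq
    obtain ⟨r, hr, s, hs, h'⟩ := h q hq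
    exact ⟨r, hr, ⟨s, hs⟩, forc_pt.2 fun q' hq' => ⟨q', le_rfl, hq'.trans h'⟩⟩

end

end Pool.Agent.BVU
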