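import Pool.Agent.BVU.Bool
import Pool.Agent.BVU.RO

/-!
# The forcing relation for propositions about the quotient models
-/

namespace Pool.Agent.BVU

universe u

open Pool.Agent.BVM (Fml Sat ZFC cons UPair OPair Rel FunOn Tran Ordl Limit Omega CardLE SuccCard)


open Classical

section

variable {P : Type u} [Preorder P]

/-- the ultrafilters of the regular open algebra -/
abbrev GG (P : Type u) [Preorder P] : Type u := Pt (⊤ : RO P)

/-- `A` holds in all quotient models given by ultrafilters containing `q` -/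
def Fc (q : P) (A : GG P → Prop) : Prop := ∀ F : GG P, F.1.U (pt q) → A F

theorem forc_self (q : P) : Forc q (pt q) := pt_le_iff.1 le_rfl

theorem pt_mono {q r : P} (h : r ≤ q) : pt r ≤ pt q := pt_le_iff.2 ((forc_self q).mono h)

theorem exists_gg (q : P) : ∃ F : GG P, F.1.U (pt q) := by
  obtain ⟨F, hF⟩ := BVU.exists_uf (b := pt q) (fun h => by
    have := forc_self q
    rw [h] at this
    exact forc_bot this)
  exact ⟨⟨F, F.top⟩, hF⟩

theorem fc_iff {A : GG P → Prop} (h : RpP A) (q : P) : Fc q A ↔ Forc q (bv h) := by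
  rw [← pt_le_iff]
  constructor
  · intro hA
    exact le_of_pt le_top fun F hF => (bv_iff h F).2 (hA F hF)
  · intro hA F hF
    exact (bv_iff h F).1 (F.1.mono hA hF)

theorem Fc.mono {A : GG P → Prop} {q r : P} (h : Fc q A) (hr : r ≤ q) : Fc r A :=
  fun F hF => h F (F.1.mono (pt_mono hr) hF)

theorem Fc.dense {A : GG P → Prop} (hA : RpP A) {q : P}
    (h : ∀ r ≤ q, ∃ s ≤ r, Fc s A) : Fc q A := by
  rw [fc_iff hA, forc_iff_dense]
  intro r hr
  obtain ⟨s, hs, h⟩ := h r hr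
  exact ⟨s, hs, (fc_iff hA s).1 h⟩

theorem Fc.false {q : P} (h : Fc q fun _ => False) : False := by
  obtain ⟨F, hF⟩ := exists_gg q
  exact h F hF

theorem fc_decide {A : GG P → Prop} (hA : RpP A) (q : P) :
    ∃ r ≤ q, Fc r A ∨ Fc r fun F => ¬ A F := by
  obtain ⟨r, hr, h⟩ := forc_decide q (bv hA)
  refine ⟨r, hr, h.imp (fc_iff hA r).2 fun h F hF => ?_⟩
  have := F.1.mono (pt_le_iff.2 h) hF
  rw [F.1.compl_iff, bv_iff] at this
  exact this

theorem Fc.not {A : GG P → Prop} (hA : RpP A) {q : P} (h : ∀ r ≤ q, ¬ Fc r A) :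
    Fc q fun F => ¬ A F := by
  refine Fc.dense hA.not fun r hr => ?_
  obtain ⟨s, hs, h' | h'⟩ := fc_decide hA r
  · exact absurd h' (h s (hs.trans hr))
  · exact ⟨s, hs, h'⟩

/-- a statement which is not forced is refuted by an extension -/
theorem not_fc {A : GG P → Prop} (hA : RpP A) {q : P} (h : ¬ Fc q A) :
    ∃ r ≤ q, Fc r fun F => ¬ A F := by
  by_contra hcon
  push Not at hcon
  refine h (Fc.dense hA fun r hr => ?_)
  obtain ⟨s, hs, h' | h'⟩ := fc_decide hA r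
  · exact ⟨s, hs, h'⟩
  · exact absurd h' (hcon s (hs.trans hr))

theorem Fc.imp {A B : GG P → Prop} (hA : RpP A) (hB : RpP B) {q : P}
    (h : ∀ r ≤ q, Fc r A → Fc r B) : Fc q fun F => A F → B F := by
  refine Fc.dense (hA.imp hB) fun r hr => ?_
  obtain ⟨s, hs, h' | h'⟩ := fc_decide hA r
  · exact ⟨s, hs, fun F hF _ => h s (hs.trans hr) h' F hF⟩
  · exact ⟨s, hs, fun F hF hA => absurd hA (h' F hF)⟩

/-- everything forced by all conditions holds -/
theorem gg_imp {A B : GG P → Prop} (hA : RpP A) (hB : RpP B)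
    (h : ∀ q, Fc q A → Fc q B) (F : GG P) (hF : A F) : B F := by
  have h1 : bv hA ≤ bv hB := by
    rw [forc_le_iff]
    exact fun p hp => (fc_iff hB p).1 (h p ((fc_iff hA p).2 hp))
  exact (bv_iff hB F).1 (F.1.mono h1 ((bv_iff hA F).2 hF))

theorem gg_all {B : GG P → Prop} (hB : RpP B) (h : ∀ q, Fc q B) (F : GG P) : B F :=
  gg_imp (RpP.const True) hB (fun q _ => h q) F trivial

theorem gg_not {A : GG P → Prop} (hA : RpP A) (h : ∀ q, ¬ Fc q A) (F : GG P) : ¬ A F :=
  gg_all hA.not (fun _ => Fc.not hA fun r _ => h r) F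

theorem Fc.all {A : ∀ F : GG P, Md F → Prop} {q : P} (h : ∀ y : BSet (RO P),
    Fc q fun F => A F (nm F y)) : Fc q fun F => ∀ y, A F y := by
  intro F hF y
  obtain ⟨y, rfl⟩ := exists_nm y
  exact h y F hF

/-- names for witnesses -/
theorem Fc.name {A : ∀ F : GG P, Md F → Prop} (hA : ∀ y, RpP fun F => A F (nm F y)) {q : P}
    (h : Fc q fun F => ∃ y, A F y) : ∃ y : BSet (RO P), Fc q fun F => A F (nm F y) := by
  obtain ⟨y, hy⟩ := exists_name (b := (⊤ : RO P)) (P := fun F y => F.1.U (pt q) → A F y)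
    (fun y => (RpP.val _).imp (hA y)) (fun F => by
      by_cases hF : F.1.U (pt q)
      · obtain ⟨y, hy⟩ := h F hF
        exact ⟨y, fun _ => hy⟩
      · exact ⟨nm F (chk fun e : PEmpty.{u + 1} => e.elim), fun h => absurd h hF⟩)
  exact ⟨y, hy⟩

/-- elements of check sets are decided -/
theorem Fc.chk {X : Type u} {x : X → BSet (RO P)} {y : BSet (RO P)} {q : P}
    (h : Fc q fun F => In F (nm F y) (nm F (chk x))) :
    ∃ r ≤ q, ∃ a, Fc r fun F => nm F y = nm F (x a) := by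
  have h1 : Forc q (memv y (BVU.chk x)) := by
    rw [← pt_le_iff]
    exact le_of_pt le_top fun F hF => h F hF
  rw [BVU.memv_chk, forc_iSup] at h1
  obtain ⟨r, hr, a, ha⟩ := h1 q le_rfl
  refine ⟨r, hr, a, fun F hF => ?_⟩
  show nm F y = nm F (x a)
  rw [nm_eq]
  exact F.1.mono (pt_le_iff.2 ha) hF

/-- a disjunction is decided -/
theorem Fc.or {A B : GG P → Prop} (hA : RpP A) {q : P}
    (h : Fc q fun F => A F ∨ B F) : ∃ r ≤ q, Fc r A ∨ Fc r B := by
  obtain ⟨r, hr, h' | h'⟩ := fc_decide hA q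
  · exact ⟨r, hr, Or.inl h'⟩
  · exact ⟨r, hr, Or.inr fun F hF => ((h.mono hr) F hF).resolve_left (h' F hF)⟩

/-- descending sequences have lower bounds -/
def SigmaClosed (P : Type u) [Preorder P] : Prop :=
  ∀ p : ℕ → P, (∀ n, p (n + 1) ≤ p n) → ∃ q, ∀ n, q ≤ p n

/-- fusion of countably many dense requirements -/
theorem fuse (hσ : SigmaClosed P) {p : P} {Φ : ℕ → P → Prop}
    (hm : ∀ n q r, r ≤ q → Φ n q → Φ n r) (hd : ∀ n, ∀ q ≤ p, ∃ r ≤ q, Φ n r) :
    ∃ q ≤ p, ∀ n, Φ n q := by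
  let T : Type u := {q : P // q ≤ p}
  have hstep : ∀ (n : ℕ) (q : T), ∃ r : T, r.1 ≤ q.1 ∧ Φ n r.1 := by
    intro n q
    obtain ⟨r, hr, h⟩ := hd n q.1 q.2
    exact ⟨⟨r, hr.trans q.2⟩, hr, h⟩
  choose g hg1 hg2 using hstep
  let s : ℕ → T := fun n => Nat.rec ⟨p, le_rfl⟩ (fun n q => g n q) n
  have hs : ∀ n, s (n + 1) = g n (s n) := fun n => rfl
  obtain ⟨q, hq⟩ := hσ (fun n => (s n).1) (fun n => by
    show (s (n + 1)).1 ≤ (s n).1
    rw [hs]
    exact hg1 n (s n))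
  refine ⟨q, (hq 0).trans (s 0).2, fun n => ?_⟩
  refine hm n _ _ (hq (n + 1)) ?_
  show Φ n (s (n + 1)).1
  rw [hs]
  exact hg2 n (s n)

/-- countably many statements are decided -/
theorem decide_all (hσ : SigmaClosed P) (p : P) {ι : Type*} [Countable ι]
    {A : ι → GG P → Prop} (hA : ∀ i, RpP (A i)) :
    ∃ q ≤ p, ∃ T : Set ι, ∀ i, Fc q fun F => (A i F ↔ i ∈ T) := by
  by_cases hι : Nonempty ι
  · obtain ⟨e, he⟩ := exists_surjective_nat ι
    obtain ⟨q, hq, h⟩ := fuse hσ (p := p)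
      (Φ := fun n q => Fc q (A (e n)) ∨ Fc q fun F => ¬ A (e n) F)
      (fun n q r hr h => h.imp (fun h => h.mono hr) fun h => h.mono hr)
      (fun n q _ => fc_decide (hA (e n)) q)
    refine ⟨q, hq, {i | Fc q (A i)}, fun i F hF => ?_⟩
    obtain ⟨n, rfl⟩ := he i
    rcases h n with h' | h'
    · exact ⟨fun _ => h', fun _ => h' F hF⟩
    · refine ⟨fun h => absurd h (h' F hF), fun h => ?_⟩
      exact absurd (h F hF) (h' F hF)
  · exact ⟨p, le_rfl, ∅, fun i => absurd ⟨i⟩ hι⟩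

end

end Pool.Agent.BVU
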