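import Pool.Agent.BVU.Basic
import Pool.Agent.BVM.Fml

/-!
# Boolean values of formulas, and quotients by ultrafilters
-/

namespace Pool.Agent.BVU

universe u

open Pool.Agent.BVM (Fml Sat ZFC cons)


section

variable {B : Type u} [CompleteBooleanAlgebra B]

/-- Boolean value of a formula -/
noncomputable def val : Fml → (ℕ → BSet B) → B
  | .mem i j, v => memv (v i) (v j)
  | .eq i j, v => eqv (v i) (v j)
  | .neg a, v => (val a v)ᶜ
  | .and a b, v => val a v ⊓ val b v
  | .or a b, v => val a v ⊔ val b v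
  | .imp a b, v => val a v ⇨ val b v
  | .iff a b, v => (val a v ⇨ val b v) ⊓ (val b v ⇨ val a v)
  | .all a, v => ⨅ x, val a (cons x v)
  | .ex a, v => ⨆ x, val a (cons x v)

theorem himp_congr_le {e a a' b b' : B} (h : e ⊓ a' ≤ a) (h' : e ⊓ b ≤ b') :
    e ⊓ (a ⇨ b) ≤ (a' ⇨ b') := by
  rw [le_himp_iff]
  calc e ⊓ (a ⇨ b) ⊓ a' ≤ e ⊓ b := by
        refine le_inf (inf_le_left.trans inf_le_left) ?_
        calc e ⊓ (a ⇨ b) ⊓ a' ≤ (a ⇨ b) ⊓ a := by
              refine le_inf (inf_le_left.trans inf_le_right) (le_trans ?_ h)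
              exact le_inf (inf_le_left.trans inf_le_left) inf_le_right
          _ ≤ b := himp_inf_le
    _ ≤ b' := h'

/-- formulas respect equality -/
theorem val_congr (φ : Fml) : ∀ (v v' : ℕ → BSet B) (e : B), (∀ i, e ≤ eqv (v i) (v' i)) →
    e ⊓ val φ v ≤ val φ v' := by
  induction φ with
  | mem i j =>
    intro v v' e he
    refine le_trans ?_ (memv_congr_right (v' i) (v j) (v' j))
    refine le_inf (inf_le_left.trans (he j)) ?_
    refine le_trans ?_ (memv_congr_left (v i) (v' i) (v j))
    exact inf_le_inf_right _ (he i)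
  | eq i j =>
    intro v v' e he
    refine le_trans ?_ (eqv_trans (v' i) (v i) (v' j))
    refine le_inf (inf_le_left.trans ((he i).trans (eqv_symm _ _).le)) ?_
    refine le_trans ?_ (eqv_trans (v i) (v j) (v' j))
    exact le_inf inf_le_right (inf_le_left.trans (he j))
  | neg a iha =>
    intro v v' e he
    have h := iha v' v e fun i => (he i).trans (eqv_symm _ _).le
    show e ⊓ (val a v)ᶜ ≤ (val a v')ᶜ
    rw [← himp_bot, ← himp_bot]
    exact himp_congr_le h inf_le_right
  | and a b iha ihb =>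
    intro v v' e he
    refine le_inf ?_ ?_
    · exact le_trans (inf_le_inf_left _ inf_le_left) (iha v v' e he)
    · exact le_trans (inf_le_inf_left _ inf_le_right) (ihb v v' e he)
  | or a b iha ihb =>
    intro v v' e he
    show e ⊓ (val a v ⊔ val b v) ≤ val a v' ⊔ val b v'
    rw [inf_sup_left]
    exact sup_le_sup (iha v v' e he) (ihb v v' e he)
  | imp a b iha ihb =>
    intro v v' e he
    exact himp_congr_le (iha v' v e fun i => (he i).trans (eqv_symm _ _).le) (ihb v v' e he)
  | iff a b iha ihb =>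
    intro v v' e he
    have he' : ∀ i, e ≤ eqv (v' i) (v i) := fun i => (he i).trans (eqv_symm _ _).le
    refine le_inf ?_ ?_
    · exact le_trans (inf_le_inf_left _ inf_le_left) (himp_congr_le (iha v' v e he')
        (ihb v v' e he))
    · exact le_trans (inf_le_inf_left _ inf_le_right) (himp_congr_le (ihb v' v e he')
        (iha v v' e he))
  | all a iha =>
    intro v v' e he
    refine le_iInf fun x => ?_
    refine le_trans (inf_le_inf_left _ (iInf_le _ x)) (iha (cons x v) (cons x v') e ?_)
    intro i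
    cases i with
    | zero => exact le_top.trans (eqv_refl x).ge
    | succ n => exact he n
  | ex a iha =>
    intro v v' e he
    show e ⊓ (⨆ x, val a (cons x v)) ≤ ⨆ x, val a (cons x v')
    rw [inf_iSup_eq]
    refine iSup_mono fun x => ?_
    refine (iha (cons x v) (cons x v') e ?_)
    intro i
    cases i with
    | zero => exact le_top.trans (eqv_refl x).ge
    | succ n => exact he n

theorem val_congr1 (φ : Fml) (v : ℕ → BSet B) : Congr (fun x => val φ (cons x v)) := by
  intro x y
  refine val_congr φ (cons x v) (cons y v) (eqv x y) ?_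
  intro i
  cases i with
  | zero => exact le_rfl
  | succ n => exact le_top.trans (eqv_refl _).ge

theorem val_congr2 (φ : Fml) (v : ℕ → BSet B) (z : BSet B) :
    Congr (fun x => val φ (cons z (cons x v))) := by
  intro x y
  refine val_congr φ _ _ (eqv x y) ?_
  intro i
  cases i with
  | zero => exact le_top.trans (eqv_refl _).ge
  | succ n =>
    cases n with
    | zero => exact le_rfl
    | succ n => exact le_top.trans (eqv_refl _).ge

/-- ultrafilters -/
structure UF (B : Type u) [CompleteBooleanAlgebra B] where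
  /-- membership in the ultrafilter -/
  U : B → Prop
  top : U ⊤
  bot : ¬ U ⊥
  mono : ∀ {a b}, a ≤ b → U a → U b
  inf : ∀ {a b}, U a → U b → U (a ⊓ b)
  em : ∀ a, U a ∨ U aᶜ

theorem exists_uf {b : B} (hb : b ≠ ⊥) : ∃ F : UF B, F.U b := by
  have hdis : Disjoint ((Order.PFilter.principal b : Order.PFilter B) : Set B)
      ((Order.Ideal.principal (⊥ : B) : Order.Ideal B) : Set B) := by
    rw [Set.disjoint_left]
    intro x hx hx'
    have h1 : b ≤ x := Order.PFilter.mem_principal.1 hx
    have h2 : x ≤ ⊥ := Order.Ideal.mem_principal.1 hx'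
    exact hb (le_bot_iff.1 (h1.trans h2))
  obtain ⟨J, hJ, _, hJ2⟩ := DistribLattice.prime_ideal_of_disjoint_filter_ideal hdis
  have hbJ : b ∉ J := fun h => Set.disjoint_left.1 hJ2 (Order.PFilter.mem_principal.2 le_rfl) h
  have htop : (⊤ : B) ∉ J := fun h => hbJ (J.lower le_top h)
  refine ⟨⟨fun x => x ∉ J, htop, fun h => h J.bot_mem, fun hab ha hb => ha (J.lower hab hb),
    fun {x y} hx hy hxy => ?_, fun x => ?_⟩, hbJ⟩
  · rcases hJ.mem_or_mem hxy with h | h
    · exact hx h
    · exact hy h
  · by_contra hcon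
    push Not at hcon
    apply htop
    rw [← sup_compl_eq_top (x := x)]
    exact J.sup_mem hcon.1 hcon.2

theorem UF.inf_iff (F : UF B) {a b : B} : F.U (a ⊓ b) ↔ F.U a ∧ F.U b :=
  ⟨fun h => ⟨F.mono inf_le_left h, F.mono inf_le_right h⟩, fun h => F.inf h.1 h.2⟩

theorem UF.compl_iff (F : UF B) {a : B} : F.U aᶜ ↔ ¬ F.U a := by
  constructor
  · intro h h'
    apply F.bot
    rw [← inf_compl_self a]
    exact F.inf h' h
  · intro h
    exact (F.em a).resolve_left h

theorem UF.sup_iff (F : UF B) {a b : B} : F.U (a ⊔ b) ↔ F.U a ∨ F.U b := by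
  constructor
  · intro h
    by_contra hcon
    push Not at hcon
    have h1 := F.inf (F.compl_iff.2 hcon.1) (F.compl_iff.2 hcon.2)
    rw [← compl_sup] at h1
    exact F.compl_iff.1 h1 h
  · rintro (h | h)
    · exact F.mono le_sup_left h
    · exact F.mono le_sup_right h

theorem UF.himp_iff (F : UF B) {a b : B} : F.U (a ⇨ b) ↔ (F.U a → F.U b) := by
  rw [himp_eq, F.sup_iff, F.compl_iff]
  tauto

theorem le_of_uf {a b : B} (h : ∀ F : UF B, F.U a → F.U b) : a ≤ b := by
  by_contra hcon
  have hne : a ⊓ bᶜ ≠ ⊥ := by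
    intro h
    apply hcon
    rwa [← disjoint_iff, disjoint_compl_right_iff] at h
  obtain ⟨F, hF⟩ := exists_uf hne
  rw [F.inf_iff, F.compl_iff] at hF
  exact hF.2 (h F hF.1)

theorem eq_of_uf {a b : B} (h : ∀ F : UF B, F.U a ↔ F.U b) : a = b :=
  le_antisymm (le_of_uf fun F => (h F).1) (le_of_uf fun F => (h F).2)

/-- equality modulo an ultrafilter -/
def UF.setoid (F : UF B) : Setoid (BSet B) where
  r x y := F.U (eqv x y)
  iseqv :=
    { refl := fun x => by rw [eqv_refl]; exact F.top
      symm := fun {x y} h => by rw [eqv_symm]; exact h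
      trans := fun {x y z} h h' => F.mono (eqv_trans x y z) (F.inf h h') }

/-- the quotient model -/
def Mod (F : UF B) : Type (u + 1) := Quotient F.setoid

/-- the class of a name -/
def Mod.mk (F : UF B) (x : BSet B) : Mod F := Quotient.mk F.setoid x

theorem Mod.mk_eq {F : UF B} {x y : BSet B} : Mod.mk F x = Mod.mk F y ↔ F.U (eqv x y) :=
  Quotient.eq (r := F.setoid)

theorem Mod.exists_rep {F : UF B} (x : Mod F) : ∃ y, Mod.mk F y = x := Quotient.exists_rep x

/-- membership in the quotient model -/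
def Mod.E (F : UF B) : Mod F → Mod F → Prop :=
  Quotient.lift₂ (s₁ := F.setoid) (s₂ := F.setoid) (fun x y => F.U (memv x y))
    (fun a₁ b₁ a₂ b₂ (h₁ : F.U (eqv a₁ a₂)) (h₂ : F.U (eqv b₁ b₂)) => propext
      ⟨fun h => F.mono (memv_congr_right _ _ _) (F.inf h₂ (F.mono (memv_congr_left _ _ _)
        (F.inf h₁ h))), fun h => F.mono (memv_congr_right _ _ _) (F.inf
          ((eqv_symm b₁ b₂) ▸ h₂) (F.mono (memv_congr_left _ _ _)
        (F.inf ((eqv_symm a₁ a₂) ▸ h₁) h)))⟩)

theorem Mod.E_mk {F : UF B} {x y : BSet B} : Mod.E F (Mod.mk F x) (Mod.mk F y) ↔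
    F.U (memv x y) := Iff.rfl

theorem cons_mk (F : UF B) (x : BSet B) (v : ℕ → BSet B) :
    cons (Mod.mk F x) (fun i => Mod.mk F (v i)) = fun i => Mod.mk F (cons x v i) := by
  funext i
  cases i <;> rfl

/-- truth in the quotient model -/
theorem los (F : UF B) (φ : Fml) : ∀ v : ℕ → BSet B,
    Sat (Mod.E F) φ (fun i => Mod.mk F (v i)) ↔ F.U (val φ v) := by
  induction φ with
  | mem i j => intro v; exact Mod.E_mk
  | eq i j => intro v; exact Mod.mk_eq
  | neg a iha =>
    intro v
    rw [Sat, val, iha, F.compl_iff]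
  | and a b iha ihb =>
    intro v
    rw [Sat, val, iha, ihb, F.inf_iff]
  | or a b iha ihb =>
    intro v
    rw [Sat, val, iha, ihb, F.sup_iff]
  | imp a b iha ihb =>
    intro v
    rw [Sat, val, iha, ihb, F.himp_iff]
  | iff a b iha ihb =>
    intro v
    rw [Sat, val, iha, ihb, F.inf_iff, F.himp_iff, F.himp_iff]
    exact iff_iff_implies_and_implies
  | all a iha =>
    intro v
    rw [Sat, val]
    constructor
    · intro h
      by_contra hcon
      rw [← F.compl_iff, compl_iInf] at hcon
      have hQ : Congr (fun x => (val a (cons x v))ᶜ) := val_congr1 (.neg a) v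
      obtain ⟨x, hx⟩ := hQ.full
      rw [← hx] at hcon
      have := h (Mod.mk F x)
      rw [cons_mk, iha] at this
      exact F.compl_iff.1 hcon this
    · intro h x
      obtain ⟨x, rfl⟩ := x.exists_rep
      rw [cons_mk, iha]
      exact F.mono (iInf_le _ x) h
  | ex a iha =>
    intro v
    rw [Sat, val]
    constructor
    · rintro ⟨x, hx⟩
      obtain ⟨x, rfl⟩ := x.exists_rep
      rw [cons_mk, iha] at hx
      exact F.mono (le_iSup (fun x => val a (cons x v)) x) hx
    · intro h
      obtain ⟨x, hx⟩ := (val_congr1 a v).full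
      refine ⟨Mod.mk F x, ?_⟩
      rw [cons_mk, iha]
      rw [← hx] at h
      exact h

end

end Pool.Agent.BVU
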